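import Pool.Agent.W207.PF.SpecA

set_option autoImplicit false

open Filter Topology Set MeasureTheory

namespace Pool.Agent.W177.PF.MZG

open W207.PR W207.PF

/-- the density -/
noncomputable def g0 (t : ℝ) : ℝ := 1 - (Real.sin (Real.pi * t) / (Real.pi * t)) ^ 2

lemma g0_meas : Measurable g0 := by
  unfold g0
  fun_prop

lemma g0_mem (t : ℝ) : 0 ≤ g0 t ∧ g0 t ≤ 1 := by
  unfold g0
  have h1 : |Real.sin (Real.pi * t) / (Real.pi * t)| ≤ 1 := by
    rw [abs_div]
    exact div_le_one_of_le₀ Real.abs_sin_le_abs (abs_nonneg _)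
  have h2 : (Real.sin (Real.pi * t) / (Real.pi * t)) ^ 2 ≤ 1 := by
    rw [← sq_abs]
    exact pow_le_one₀ (abs_nonneg _) h1
  constructor
  · linarith
  · linarith [sq_nonneg (Real.sin (Real.pi * t) / (Real.pi * t))]

lemma g0_even (t : ℝ) : g0 (-t) = g0 t := by
  unfold g0
  rw [mul_neg, Real.sin_neg, neg_div_neg_eq]

lemma g0_ii (a b : ℝ) : IntervalIntegrable g0 volume a b := by
  refine (intervalIntegrable_const (c := (1 : ℝ))).mono_fun' g0_meas.aestronglyMeasurable
    (ae_of_all _ fun t => ?_)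
  show ‖g0 t‖ ≤ 1
  rw [Real.norm_eq_abs, abs_of_nonneg (g0_mem t).1]
  exact (g0_mem t).2

lemma G_eq (u : ℝ) : G u = ∫ t in (0 : ℝ)..u, g0 t := rfl

lemma G_cont : Continuous G := by
  have : G = fun u => ∫ t in (0 : ℝ)..u, g0 t := rfl
  rw [this]
  exact intervalIntegral.continuous_primitive g0_ii 0

lemma G_zero : G 0 = 0 := by rw [G_eq]; simp

lemma G_mem {u : ℝ} (hu : 0 ≤ u) : 0 ≤ G u ∧ G u ≤ u := by
  rw [G_eq]
  refine ⟨intervalIntegral.integral_nonneg hu fun t _ => (g0_mem t).1, ?_⟩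
  have h := intervalIntegral.integral_mono_on hu (g0_ii 0 u)
    (intervalIntegrable_const (c := (1 : ℝ))) (fun t _ => (g0_mem t).2)
  simpa using h

lemma G_deriv {u : ℝ} (hu : 0 < u) : HasDerivAt G (g0 u) u := by
  have hc : ContinuousAt g0 u := by
    unfold g0
    have hne : Real.pi * u ≠ 0 := mul_ne_zero Real.pi_ne_zero hu.ne'
    have h1 : ContinuousAt (fun t : ℝ => Real.sin (Real.pi * t)) u := by fun_prop
    have h2 : ContinuousAt (fun t : ℝ => Real.pi * t) u := by fun_prop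
    exact continuousAt_const.sub ((h1.div h2 hne).pow 2)
  exact intervalIntegral.integral_hasDerivAt_right (g0_ii 0 u)
    (g0_meas.stronglyMeasurable.stronglyMeasurableAtFilter) hc

theorem mzg : S_MZG := by
  intro φ φ' heven hder hdc K hK
  have hcc : Continuous φ := continuous_iff_continuousAt.2 fun x => (hder x).continuousAt
  have hb : ∀ x : ℝ, |φ x| * (1 + |x|) ^ 3 ≤ K := fun x => (hK x).1
  have hd : ∀ x : ℝ, |φ' x| * (1 + |x|) ^ 3 ≤ K := fun x => (hK x).2
  have hMM : MZ φ = φ 0 + ∫ x, φ x * g0 x := rfl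
  -- the two pointwise bounds
  have key : ∀ (y : ℝ) (u : ℝ), 0 < u → |y| * (1 + |u|) ^ 3 ≤ K →
      |y| * (1 + 2 * u) ≤ 2 * K * (1 + u ^ 2)⁻¹ := by
    intro y u hu h
    rw [abs_of_pos hu] at h
    rw [← div_eq_mul_inv, le_div_iff₀ (by positivity)]
    have h1 : (1 + 2 * u) * (1 + u ^ 2) ≤ 2 * (1 + u) ^ 3 := by nlinarith [pow_pos hu 2, pow_pos hu 3]
    calc |y| * (1 + 2 * u) * (1 + u ^ 2) = |y| * ((1 + 2 * u) * (1 + u ^ 2)) := by ring
      _ ≤ |y| * (2 * (1 + u) ^ 3) := mul_le_mul_of_nonneg_left h1 (abs_nonneg _)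
      _ = 2 * (|y| * (1 + u) ^ 3) := by ring
      _ ≤ 2 * K := by linarith
  have hdom : IntegrableOn (fun u : ℝ => 2 * K * (1 + u ^ 2)⁻¹) (Ioi 0) :=
    (integrable_inv_one_add_sq.const_mul (2 * K)).integrableOn
  have hdi : IntegrableOn (fun u => φ' u) (Ioi 0) := by
    refine hdom.mono' hdc.aestronglyMeasurable ?_
    refine (ae_restrict_iff' measurableSet_Ioi).2 (ae_of_all _ fun u hu => ?_)
    have hu' : (0 : ℝ) < u := hu
    refine le_trans ?_ (key _ u hu' (hd u))
    rw [Real.norm_eq_abs]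
    exact le_mul_of_one_le_right (abs_nonneg _) (by linarith)
  have hdG : IntegrableOn (fun u => φ' u * G u) (Ioi 0) := by
    refine hdom.mono' (hdc.mul G_cont).aestronglyMeasurable ?_
    refine (ae_restrict_iff' measurableSet_Ioi).2 (ae_of_all _ fun u hu => ?_)
    have hu' : (0 : ℝ) < u := hu
    refine le_trans ?_ (key _ u hu' (hd u))
    rw [norm_mul, Real.norm_eq_abs, Real.norm_eq_abs, abs_of_nonneg (G_mem hu'.le).1]
    exact mul_le_mul_of_nonneg_left (by linarith [(G_mem hu'.le).2]) (abs_nonneg _)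
  have hcg : IntegrableOn (fun u => φ u * g0 u) (Ioi 0) := by
    refine hdom.mono' (hcc.aestronglyMeasurable.mul g0_meas.aestronglyMeasurable) ?_
    refine (ae_restrict_iff' measurableSet_Ioi).2 (ae_of_all _ fun u hu => ?_)
    have hu' : (0 : ℝ) < u := hu
    refine le_trans ?_ (key _ u hu' (hb u))
    rw [norm_mul, Real.norm_eq_abs, Real.norm_eq_abs, abs_of_nonneg (g0_mem u).1]
    exact mul_le_mul_of_nonneg_left (by linarith [(g0_mem u).2]) (abs_nonneg _)
  have hfull : IntegrableOn (fun u => φ' u * (1 + 2 * G u)) (Ioi 0) := by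
    have h := hdi.add (hdG.const_mul 2)
    refine h.congr (ae_of_all _ fun u => ?_)
    show φ' u + 2 * (φ' u * G u) = φ' u * (1 + 2 * G u)
    ring
  -- limits at infinity
  have hlim : ∀ f : ℝ → ℝ, (∀ u : ℝ, 0 < u → |f u| * (1 + u) ^ 2 ≤ K) →
      Tendsto f atTop (𝓝 0) := by
    intro f hf
    have h1 : Tendsto (fun u : ℝ => K * (u)⁻¹) atTop (𝓝 0) := by
      simpa using tendsto_inv_atTop_zero.const_mul K
    refine squeeze_zero_norm' ?_ h1
    filter_upwards [eventually_gt_atTop 0] with u hu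
    rw [Real.norm_eq_abs, ← div_eq_mul_inv, le_div_iff₀ hu]
    refine le_trans (mul_le_mul_of_nonneg_left ?_ (abs_nonneg _)) (hf u hu)
    nlinarith
  have hl1 : Tendsto (φ) atTop (𝓝 0) := by
    apply hlim
    intro u hu
    refine le_trans (mul_le_mul_of_nonneg_left ?_ (abs_nonneg _)) (hb u)
    rw [abs_of_pos hu]
    exact pow_le_pow_right₀ (by linarith) (by norm_num)
  have hl2 : Tendsto (fun u => φ u * G u) atTop (𝓝 0) := by
    apply hlim
    intro u hu
    have h := hb u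
    rw [abs_of_pos hu] at h
    rw [abs_mul, abs_of_nonneg (G_mem hu.le).1]
    calc |φ u| * G u * (1 + u) ^ 2 ≤ |φ u| * (1 + u) * (1 + u) ^ 2 := by
          refine mul_le_mul_of_nonneg_right (mul_le_mul_of_nonneg_left ?_ (abs_nonneg _))
            (by positivity)
          linarith [(G_mem hu.le).2]
      _ = |φ u| * (1 + u) ^ 3 := by ring
      _ ≤ K := h
  have hi1 : ∫ u in Ioi (0 : ℝ), φ' u = 0 - φ 0 :=
    integral_Ioi_of_hasDerivAt_of_tendsto hcc.continuousWithinAt (fun x _ => hder x) hdi hl1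
  have hi2 : ∫ u in Ioi (0 : ℝ), (φ' u * G u + φ u * g0 u) = 0 - φ 0 * G 0 := by
    refine integral_Ioi_of_hasDerivAt_of_tendsto
      (f := fun u => φ u * G u) (hcc.mul G_cont).continuousWithinAt ?_ (hdG.add hcg) hl2
    intro x hx
    exact (hder x).mul (G_deriv hx)
  rw [G_zero, mul_zero, sub_zero, integral_add hdG hcg] at hi2
  have hi3 : ∫ x, φ x * g0 x = 2 * ∫ x in Ioi (0 : ℝ), φ x * g0 x := by
    rw [← integral_comp_abs (f := fun x => φ x * g0 x)]
    refine integral_congr_ae (ae_of_all _ fun x => ?_)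
    show φ x * g0 x = φ |x| * g0 |x|
    rcases abs_choice x with h | h
    · rw [h]
    · rw [h, heven, g0_even]
  refine ⟨hfull, ?_⟩
  have hi4 : ∫ u in Ioi (0 : ℝ), φ' u * (1 + 2 * G u) =
      (∫ u in Ioi (0 : ℝ), φ' u) + 2 * ∫ u in Ioi (0 : ℝ), φ' u * G u := by
    rw [← integral_const_mul, ← integral_add hdi (hdG.const_mul 2)]
    refine integral_congr_ae (ae_of_all _ fun u => ?_)
    show φ' u * (1 + 2 * G u) = φ' u + 2 * (φ' u * G u)
    ring
  rw [hMM, hi4, hi1, hi3]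
  linarith

end Pool.Agent.W177.PF.MZG
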